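import Mathlib
import Pool.Agent.Rig32f.Defs
import Pool.Agent.Rig32f.Main

/-!
# Linked in `ℝ^(d+1)` implies globally linked in `ℝ^d`

For every finite graph `G`, every vertex pair `{u, v}` and every `d`: if `{u, v}` is linked in `G`
in `ℝ^(d+1)`, then `{u, v}` is globally linked in `G` in `ℝ^d`.

(`Rig32f.isLinked_iff_forall` in `Pool.Agent.Rig32f.Main` checks that the definition `IsLinked`
does not depend on the generic realization that is used.)
-/

open Rig32f

namespace Pool.Agent.Results.MP_32f1bc_co.LinkedGloballyLinked

theorem result {V : Type*} [Fintype V] (d : ℕ) (G : SimpleGraph V) (u v : V)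
    (h : IsLinked (d + 1) G u v) : IsGloballyLinked d G u v :=
  globallyLinked_of_linked h

end Pool.Agent.Results.MP_32f1bc_co.LinkedGloballyLinked
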